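import Pool.Agent.Lib.MP_a19137_co.All45
import Pool.Agent.Lib.MP_a19137_co.Ex45

set_option autoImplicit false

namespace Pool.Agent.Results.MP_a19137_co.ShortSubrows

/-- `σ(n) = s_1 + ... + s_n`, with `σ(0) = 0`. -/
def partialSum (s : ℕ → ℕ) (n : ℕ) : ℕ := ∑ i ∈ Finset.Icc 1 n, s i

/-- `s_1 s_2 s_3 ...` is the Kolakoski sequence: all letters are 1 or 2, the first letter is 1, and
the sequence is its own run-length encoding, i.e. for every `m ≥ 1` the positions
`σ(m-1)+1, ..., σ(m)` (there are `s_m` of them) form the `m`-th maximal block of equal letters.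
(The value `s 0` is not used.) -/
def IsKolakoski (s : ℕ → ℕ) : Prop :=
  (∀ n, 1 ≤ n → s n = 1 ∨ s n = 2) ∧ s 1 = 1 ∧
    (∀ m, 1 ≤ m → ∀ i, partialSum s (m - 1) < i → i ≤ partialSum s m →
      s i = s (partialSum s m)) ∧
    ∀ m, 1 ≤ m → s (partialSum s m + 1) ≠ s (partialSum s m)

/-- The `S`-integral of the subrow `S_{a,b}`, given as the pair `(a, b)`: it is
`S_{σ(a-1)+1, σ(b)}`. -/
def integral (s : ℕ → ℕ) (w : ℕ × ℕ) : ℕ × ℕ := (partialSum s (w.1 - 1) + 1, partialSum s w.2)

/-- The number of letters of the subrow `S_{a,b}`. -/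
def length (w : ℕ × ℕ) : ℕ := w.2 + 1 - w.1

/-- The subrow `S_{a,b}` is `k`-regular: its iterated `S`-integrals number `0, ..., k` have an even
number of letters. -/
def Regular (s : ℕ → ℕ) (k : ℕ) (w : ℕ × ℕ) : Prop :=
  ∀ h ≤ k, Even (length ((integral s)^[h] w))

/-- No subrow of the Kolakoski sequence of length at most 19, different from 16, is 17-regular (at
any position), in particular none is infinity-regular. (The Kolakoski sequence exists.) -/
theorem result :
    (∃ s, IsKolakoski s) ∧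
      ∀ s, IsKolakoski s → ∀ a b, 1 ≤ a → a ≤ b → length (a, b) ≤ 19 → length (a, b) ≠ 16 →
        ¬ Regular s 17 (a, b) := by
  refine ⟨?_, ?_⟩
  · obtain ⟨s, H⟩ := Lib.Kol45.exists_kol
    exact ⟨s, H.letters, H.first, H.run, H.change⟩
  · intro s hs a b ha hab h1 h2 hr
    have H : Lib.Kol45.Kol s := ⟨hs.1, hs.2.1, hs.2.2.1, hs.2.2.2⟩
    have key : ∀ j, (integral s)^[j] (a, b) =
        ((Lib.Kol45.sg s)^[j] (a - 1) + 1, (Lib.Kol45.sg s)^[j] b) := by
      intro j
      induction j with
      | zero => simp only [Function.iterate_zero, id]; rw [Nat.sub_add_cancel ha]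
      | succ j ih =>
        rw [Function.iterate_succ_apply', ih, Function.iterate_succ_apply',
          Function.iterate_succ_apply']
        rfl
    change b + 1 - a ≤ 19 at h1
    change b + 1 - a ≠ 16 at h2
    obtain ⟨j, hj, ho⟩ := Lib.Kol45.all H (a - 1) (b + 1 - a) (by omega) h1 h2
    have h3 := hr j hj
    rw [key] at h3
    change Even ((Lib.Kol45.sg s)^[j] b + 1 - ((Lib.Kol45.sg s)^[j] (a - 1) + 1)) at h3
    rw [Nat.add_sub_add_right] at h3
    rw [show a - 1 + (b + 1 - a) = b by omega] at ho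
    exact (Nat.not_even_iff_odd.2 ho) h3

end Pool.Agent.Results.MP_a19137_co.ShortSubrows
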